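import Pool.Agent.V5helper19.QC.Stm

set_option autoImplicit false

open Finset V5helper19.QC

namespace V5helper58.QC

theorem cos_pair (a b : ℝ) :
    1 - Real.cos (a - b) ≤ 2 * (1 - Real.cos a) + 2 * (1 - Real.cos b) := by
  rw [Real.cos_sub]
  nlinarith [Real.sin_sq_add_cos_sq a, Real.sin_sq_add_cos_sq b,
    sq_nonneg (Real.sin a + Real.sin b), sq_nonneg (Real.cos a + Real.cos b - 2)]

theorem exists_d {δ θ : ℝ} {L : ℕ} (hδ : 0 < δ) (hδ1 : δ ≤ 1) (hL : 2 ≤ L) (h1 : δ / L ≤ |θ|)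
    (h2 : |θ| ≤ Real.pi) : ∃ d : ℕ, 2 * d ≤ L ∧ δ / 3 ≤ d * |θ| ∧ d * |θ| ≤ Real.pi := by
  have hL0 : (0 : ℝ) < L := by positivity
  have hθ : 0 < |θ| := lt_of_lt_of_le (by positivity) h1
  have hLθ : δ ≤ L * |θ| := by
    rw [div_le_iff₀ hL0] at h1
    linarith
  by_cases h : ((L / 2 : ℕ) : ℝ) * |θ| ≤ Real.pi
  · refine ⟨L / 2, by omega, ?_, h⟩
    have h3 : (L : ℝ) / 3 ≤ ((L / 2 : ℕ) : ℝ) := by
      have h4 : L ≤ 3 * (L / 2) := by omega
      have h5 : (L : ℝ) ≤ 3 * ((L / 2 : ℕ) : ℝ) := by exact_mod_cast h4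
      linarith
    nlinarith
  · push Not at h
    have hpi : 0 ≤ Real.pi / |θ| := by positivity
    have h3 : (⌊Real.pi / |θ|⌋₊ : ℝ) ≤ Real.pi / |θ| := Nat.floor_le hpi
    have h4 : Real.pi / |θ| < ⌊Real.pi / |θ|⌋₊ + 1 := Nat.lt_floor_add_one _
    have h5 : (1 : ℝ) ≤ ⌊Real.pi / |θ|⌋₊ := by
      have : 1 ≤ ⌊Real.pi / |θ|⌋₊ := by
        rw [Nat.one_le_floor_iff, le_div_iff₀ hθ, one_mul]
        exact h2
      exact_mod_cast this
    rw [le_div_iff₀ hθ] at h3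
    rw [div_lt_iff₀ hθ] at h4
    refine ⟨⌊Real.pi / |θ|⌋₊, ?_, ?_, h3⟩
    · have h6 : (⌊Real.pi / |θ|⌋₊ : ℝ) < ((L / 2 : ℕ) : ℝ) := by
        by_contra h7
        push Not at h7
        nlinarith
      have h7 : ⌊Real.pi / |θ|⌋₊ < L / 2 := by exact_mod_cast h6
      omega
    · have := Real.pi_gt_three
      nlinarith

theorem t_DK : S_DK := by
  intro δ hδ hδ1
  refine ⟨(1 - Real.cos (δ / 3)) / 8, ?_, ?_⟩
  · have h := Real.cos_lt_cos_of_nonneg_of_le_pi (le_refl (0 : ℝ))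
      (show δ / 3 ≤ Real.pi by linarith [Real.pi_gt_three]) (show 0 < δ / 3 by positivity)
    rw [Real.cos_zero] at h
    linarith
  intro L θ φ hL h1 h2
  obtain ⟨d, hd1, hd2, hd3⟩ := exists_d hδ hδ1 hL h1 h2
  have hcos : Real.cos (d * θ) ≤ Real.cos (δ / 3) := by
    rw [← Real.cos_abs, abs_mul, Nat.abs_cast]
    exact Real.cos_le_cos_of_nonneg_of_le_pi (by positivity) hd3 hd2
  set S := ∑ j ∈ range L, (1 - Real.cos (φ - j * θ)) with hS
  have hnn : ∀ j : ℕ, 0 ≤ 1 - Real.cos (φ - j * θ) := fun j => by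
    linarith [Real.cos_le_one (φ - j * θ)]
  have h3 : ∑ j ∈ range (L - d), (1 - Real.cos (d * θ)) ≤ 4 * S := by
    have h4 : ∀ j ∈ range (L - d), 1 - Real.cos (d * θ) ≤
        2 * (1 - Real.cos (φ - j * θ)) + 2 * (1 - Real.cos (φ - ((d + j : ℕ) : ℝ) * θ)) := by
      intro j _
      have h5 := cos_pair (φ - j * θ) (φ - ((d + j : ℕ) : ℝ) * θ)
      have h6 : (φ - j * θ) - (φ - ((d + j : ℕ) : ℝ) * θ) = d * θ := by
        push_cast
        ring
      rw [h6] at h5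
      exact h5
    refine (Finset.sum_le_sum h4).trans ?_
    rw [Finset.sum_add_distrib, ← Finset.mul_sum, ← Finset.mul_sum]
    have h7 : ∑ j ∈ range (L - d), (1 - Real.cos (φ - j * θ)) ≤ S :=
      Finset.sum_le_sum_of_subset_of_nonneg (Finset.range_subset_range.2 (by omega))
        fun j _ _ => hnn j
    have h8 : ∑ j ∈ range (L - d), (1 - Real.cos (φ - ((d + j : ℕ) : ℝ) * θ)) ≤ S := by
      rw [← Finset.sum_Ico_eq_sum_range (fun j : ℕ => 1 - Real.cos (φ - (j : ℝ) * θ)) d L]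
      refine Finset.sum_le_sum_of_subset_of_nonneg ?_ fun j _ _ => hnn j
      intro j hj
      rw [Finset.mem_Ico] at hj
      exact Finset.mem_range.2 hj.2
    linarith
  rw [Finset.sum_const, Finset.card_range, nsmul_eq_mul] at h3
  have h9 : (L : ℝ) / 2 ≤ ((L - d : ℕ) : ℝ) := by
    have h10 : L ≤ 2 * (L - d) := by omega
    have h11 : (L : ℝ) ≤ 2 * ((L - d : ℕ) : ℝ) := by exact_mod_cast h10
    linarith
  have h12 : 0 ≤ 1 - Real.cos (δ / 3) := by linarith [Real.cos_le_one (δ / 3)]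
  have hL0 : (0 : ℝ) ≤ L := by positivity
  nlinarith

end V5helper58.QC
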