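import Pool.Agent.V5helper19.QC.Stm

set_option autoImplicit false

open Finset V5helper19.QC

namespace V5helper58.QC

theorem norm_one_add (r g : ℝ) (hr : 0 < r) :
    ‖1 + (r : ℂ) * Complex.exp ((g : ℂ) * Complex.I)‖ ≤
      (1 + r) * Real.exp (-(r / (1 + r) ^ 2 * (1 - Real.cos g))) := by
  have h1 : ‖1 + (r : ℂ) * Complex.exp ((g : ℂ) * Complex.I)‖ ^ 2 =
      (1 + r) ^ 2 - 2 * r * (1 - Real.cos g) := by
    rw [Complex.sq_norm, Complex.normSq_apply, Complex.exp_mul_I, ← Complex.ofReal_cos,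
      ← Complex.ofReal_sin]
    simp only [Complex.add_re, Complex.one_re, Complex.mul_re, Complex.ofReal_re,
      Complex.ofReal_im, Complex.I_re, Complex.I_im, Complex.add_im, Complex.one_im,
      Complex.mul_im]
    ring_nf
    nlinarith [Real.sin_sq_add_cos_sq g]
  have hpos : 0 < 1 + r := by linarith
  refine le_of_sq_le_sq ?_ (by positivity)
  rw [h1, mul_pow, ← Real.exp_nat_mul]
  set y := 2 * (r / (1 + r) ^ 2 * (1 - Real.cos g)) with hy
  have h2 : (1 + r) ^ 2 - 2 * r * (1 - Real.cos g) = (1 + r) ^ 2 * (1 - y) := by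
    rw [hy]
    field_simp
  have h3 : ((2 : ℕ) : ℝ) * -(r / (1 + r) ^ 2 * (1 - Real.cos g)) = -y := by
    rw [hy]
    push_cast
    ring
  rw [h2, h3]
  refine mul_le_mul_of_nonneg_left ?_ (by positivity)
  have := Real.add_one_le_exp (-y)
  linarith

theorem weight {r : ℝ} (h1 : 1 / 3 ≤ r) (h2 : r ≤ 3) : 1 / 8 ≤ r / (1 + r) ^ 2 := by
  rw [div_le_div_iff₀ (by norm_num) (by positivity)]
  nlinarith

theorem t_PR (h : S_DK) : S_PR := by
  intro δ hδ hδ1
  obtain ⟨c, hc, hDK⟩ := h δ hδ hδ1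
  refine ⟨c / 8, by positivity, ?_⟩
  intro n α θ φ hn hα hN h1 h2
  set s := Real.exp (α * ((n : ℝ) - 1 / 2)) with hs
  set ρ : ℕ → ℝ := fun j => s * Real.exp (-α) ^ j with hρ
  have hρpos : ∀ j, 0 < ρ j := fun j => by positivity
  have hρe : ∀ j : ℕ, ρ j = Real.exp (α * ((n : ℝ) - 1 / 2 - j)) := by
    intro j
    simp only [hρ, hs]
    rw [← Real.exp_nat_mul, ← Real.exp_add]
    congr 1
    ring
  have hterm : ∀ j ∈ range (2 * n), ‖1 + (s : ℂ) * Complex.exp ((φ : ℂ) * Complex.I) *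
      Complex.exp (-(zz α θ)) ^ j‖ ≤
      (1 + ρ j) * Real.exp (-(ρ j / (1 + ρ j) ^ 2 * (1 - Real.cos (φ - j * θ)))) := by
    intro j _
    have h3 : (s : ℂ) * Complex.exp ((φ : ℂ) * Complex.I) * Complex.exp (-(zz α θ)) ^ j =
        (ρ j : ℂ) * Complex.exp (((φ - j * θ : ℝ) : ℂ) * Complex.I) := by
      simp only [hρ]
      push_cast
      rw [← Complex.exp_nat_mul, ← Complex.exp_nat_mul, mul_assoc, mul_assoc, ← Complex.exp_add,
        ← Complex.exp_add]
      congr 2
      unfold zz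
      ring
    rw [h3]
    exact norm_one_add _ _ (hρpos j)
  refine (Finset.prod_le_prod (fun j _ => norm_nonneg _) hterm).trans ?_
  rw [Finset.prod_mul_distrib, ← Real.exp_sum, mul_comm]
  refine mul_le_mul_of_nonneg_right (Real.exp_le_exp.2 ?_)
    (Finset.prod_nonneg fun j _ => by have := hρpos j; positivity)
  rw [Finset.sum_neg_distrib, neg_le_neg_iff]
  set N := NN n α with hNN
  have hN1 : N ≤ n := min_le_left _ _
  have hN2 : N ≤ 1 / α := min_le_right _ _
  have hN0 : 0 < N := by linarith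
  set M := ⌊N⌋₊ with hM
  have hM1 : (M : ℝ) ≤ N := Nat.floor_le hN0.le
  have hM2 : N < M + 1 := Nat.lt_floor_add_one N
  have hM3 : 2 ≤ M := Nat.le_floor (by exact_mod_cast hN)
  have hM3' : (2 : ℝ) ≤ M := by exact_mod_cast hM3
  have hMn : M ≤ n := by
    have : (M : ℝ) ≤ n := hM1.trans hN1
    exact_mod_cast this
  have hαM : α * M ≤ 1 := by
    have h3 : (M : ℝ) ≤ 1 / α := hM1.trans hN2
    rw [le_div_iff₀ hα] at h3
    linarith
  have hnn : ∀ j : ℕ, 0 ≤ 1 - Real.cos (φ - j * θ) := fun j => by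
    linarith [Real.cos_le_one (φ - j * θ)]
  have h4 : ∑ j ∈ Ico (n - M) (n + M), (1 / 8 : ℝ) * (1 - Real.cos (φ - j * θ)) ≤
      ∑ j ∈ range (2 * n), ρ j / (1 + ρ j) ^ 2 * (1 - Real.cos (φ - j * θ)) := by
    refine (Finset.sum_le_sum (f := fun j : ℕ => (1 / 8 : ℝ) * (1 - Real.cos (φ - j * θ)))
      (g := fun j : ℕ => ρ j / (1 + ρ j) ^ 2 * (1 - Real.cos (φ - j * θ))) ?_).trans ?_
    · intro j hj
      rw [Finset.mem_Ico] at hj
      refine mul_le_mul_of_nonneg_right ?_ (hnn j)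
      have h5 : (n : ℝ) ≤ j + M := by
        have : n ≤ j + M := by omega
        exact_mod_cast this
      have h6 : (j : ℝ) + 1 ≤ n + M := by
        have : j + 1 ≤ n + M := by omega
        exact_mod_cast this
      have h7 : α * ((n : ℝ) - 1 / 2 - j) ≤ 1 := by nlinarith
      have h8 : -1 ≤ α * ((n : ℝ) - 1 / 2 - j) := by nlinarith
      have he : Real.exp 1 < 3 := by
        have := Real.exp_one_lt_d9
        linarith
      apply weight
      · rw [hρe]
        have h9 : Real.exp (-1) ≤ Real.exp (α * ((n : ℝ) - 1 / 2 - j)) := Real.exp_le_exp.2 h8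
        have h10 : 1 / 3 ≤ Real.exp (-1) := by
          rw [Real.exp_neg, ← one_div]
          exact one_div_le_one_div_of_le (Real.exp_pos 1) he.le
        linarith
      · rw [hρe]
        have h9 : Real.exp (α * ((n : ℝ) - 1 / 2 - j)) ≤ Real.exp 1 := Real.exp_le_exp.2 h7
        linarith
    · refine Finset.sum_le_sum_of_subset_of_nonneg ?_ fun j _ _ => ?_
      · intro j hj
        rw [Finset.mem_Ico] at hj
        exact Finset.mem_range.2 (by omega)
      · have := hρpos j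
        exact mul_nonneg (by positivity) (hnn j)
  refine le_trans ?_ h4
  rw [← Finset.mul_sum, Finset.sum_Ico_eq_sum_range]
  have h11 : n + M - (n - M) = 2 * M := by omega
  rw [h11]
  have h12 := hDK (2 * M) θ (φ - ((n - M : ℕ) : ℝ) * θ) (by omega) (by
    refine le_trans ?_ h1
    refine div_le_div_of_nonneg_left hδ.le hN0 ?_
    push_cast
    linarith) h2
  have h13 : ∀ i ∈ range (2 * M), (1 - Real.cos (φ - ((n - M : ℕ) : ℝ) * θ - i * θ)) =
      1 - Real.cos (φ - ((n - M + i : ℕ) : ℝ) * θ) := by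
    intro i _
    congr 2
    push_cast
    ring
  rw [Finset.sum_congr rfl h13] at h12
  push_cast at h12
  push_cast
  nlinarith

end V5helper58.QC
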